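import Pool.Agent.GJ.Defs
import Pool.Agent.H73.DU.RatNice

/-!
# GJ-Bas: first properties

PLAN.  `fin_open`: an open subgroup of the compact group `GQ` has finite index (`nice_rat`, `Nice` has a field for this).
`Ci.mono`: `Subgroup.relIndex_dvd_of_le_left`.  `Ci.cj`: `(cj b H).relIndex P.D = H.relIndex (P.mv b).D` (conjugation by `b`: `(P.mv b).D = b P.D b⁻¹`, `cj b H = b⁻¹ H b`), openness of `cj b H` (preimage under conjugation).
`good_iff`: `(kr H χ).relIndex P.D = H.relIndex P.D * r`, `r = (kr H χ ⊓ P.D).relIndex (H ⊓ P.D)`, which is `2` if `NtAt H P χ` and `1` otherwise; `P` critical: `2 ^ i ∣ H.relIndex P.D`, not `2 ^ (i+1)`.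
`GT.mono`: `kr_mono` (Defs), `good_iff`, `Ci.mono`.  `crit_congr`: conjugate decomposition groups in `H` (`PEq.D`).  `kr_index`: `χ` is a nontrivial homomorphism to `ℤˣ` on `H`.
-/

namespace Pool.Agent.GJ

open MulAction Pool.Agent.H73.DU Pool.Agent.H73.AL Pool.Agent.LD Pool.Agent.TS

section grp

variable {G : Type} [Group G]

theorem mem_cj_conj {a : G} {U : Subgroup G} {g : G} :
    g ∈ cj a U ↔ a * g * a⁻¹ ∈ U := by
  rw [mem_cj_iff]
  constructor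
  · rintro ⟨u, hu, rfl⟩
    have : a * (a⁻¹ * u * a) * a⁻¹ = u := by group
    rwa [this]
  · intro h
    exact ⟨_, h, by group⟩

theorem cj_relIndex (a : G) (U W : Subgroup G) :
    (cj a U).relIndex W = U.relIndex (cj a⁻¹ W) := by
  have h1 : W = cj a (cj a⁻¹ W) := by
    ext x
    rw [mem_cj_conj, mem_cj_conj]
    have : a⁻¹ * (a * x * a⁻¹) * a⁻¹⁻¹ = x := by group
    rw [this]
  conv_lhs => rw [h1]
  unfold cj
  exact Subgroup.relIndex_map_map_of_injective _ _ (MulAut.conj a⁻¹).injective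

theorem cj_of_mem {a : G} {U : Subgroup G} (h : a ∈ U) : cj a U = U := by
  ext x
  rw [mem_cj_conj]
  constructor
  · intro h1
    have h2 := U.mul_mem (U.mul_mem (U.inv_mem h) h1) h
    have : a⁻¹ * (a * x * a⁻¹) * a = x := by group
    rwa [this] at h2
  · intro h1
    exact U.mul_mem (U.mul_mem h h1) (U.inv_mem h)

theorem cj_open [TopologicalSpace G] [IsTopologicalGroup G] {U : Subgroup G}
    (h : IsOpen (U : Set G)) (a : G) : IsOpen ((cj a U : Subgroup G) : Set G) := by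
  have h1 : ((cj a U : Subgroup G) : Set G) = (fun g => a * g * a⁻¹) ⁻¹' (U : Set G) := by
    ext g
    exact mem_cj_conj
  rw [h1]
  exact h.preimage ((continuous_const.mul continuous_id).mul continuous_const)

theorem units_ne {x : ℤˣ} (h : x ≠ 1) : x = -1 := (Int.units_eq_one_or x).resolve_left h

/-- the index of the kernel of a nontrivial character -/
theorem kr_index {H : Subgroup G} {χ : G → ℤˣ} (hχ : Mulp H χ) (hn : ¬ Tr H χ) :
    (kr H χ).relIndex H = 2 := by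
  unfold Tr at hn
  push Not at hn
  obtain ⟨a, ha, ha'⟩ := hn
  unfold Subgroup.relIndex
  rw [Subgroup.index_eq_two_iff]
  refine ⟨⟨a, ha⟩, fun b => ?_⟩
  rw [Subgroup.mem_subgroupOf, Subgroup.mem_subgroupOf, mem_kr hχ, mem_kr hχ]
  have h1 : χ ((b * ⟨a, ha⟩ : H) : G) = χ b * χ a := hχ b b.2 a ha
  rw [h1, units_ne ha']
  rcases Int.units_eq_one_or (χ b) with h2 | h2
  · rw [h2]
    refine Or.inr ⟨⟨b.2, rfl⟩, ?_⟩
    rintro ⟨-, h3⟩
    exact absurd h3 (by decide)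
  · rw [h2]
    refine Or.inl ⟨⟨(b * ⟨a, ha⟩ : H).2, by decide⟩, ?_⟩
    rintro ⟨-, h3⟩
    exact absurd h3 (by decide)

theorem kr_index' {H : Subgroup G} {χ : G → ℤˣ} (hχ : Mulp H χ) (hn : ¬ Tr H χ) :
    (kr H χ).index = 2 * H.index := by
  rw [← Subgroup.relIndex_mul_index (kr_le H χ), kr_index hχ hn]

theorem kr_relIndex {H D : Subgroup G} {χ : G → ℤˣ} (hχ : Mulp H χ)
    (hn : ¬ ∀ h ∈ D, h ∈ H → χ h = 1) : (kr H χ).relIndex D = 2 * H.relIndex D := by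
  have h1 : kr (H ⊓ D) χ = kr H χ ⊓ D := by
    rw [kr_mono hχ inf_le_left, inf_assoc, inf_comm D, ← inf_assoc, inf_eq_right.2 (kr_le H χ)]
  have h2 : ¬ Tr (H ⊓ D) χ := fun h => hn fun g hg hg' => h g ⟨hg', hg⟩
  rw [← Subgroup.inf_relIndex_right (kr H χ) D, ← Subgroup.inf_relIndex_right H D,
    ← Subgroup.relIndex_mul_relIndex _ _ _ (inf_le_inf_right D (kr_le H χ)) inf_le_right,
    ← h1, kr_index (hχ.mono inf_le_left) h2]

theorem kr_relIndex' {H D : Subgroup G} {χ : G → ℤˣ} (hχ : Mulp H χ)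
    (hn : ∀ h ∈ D, h ∈ H → χ h = 1) : (kr H χ).relIndex D = H.relIndex D := by
  have h1 : kr H χ ⊓ D = H ⊓ D := by
    ext g
    rw [Subgroup.mem_inf, Subgroup.mem_inf, mem_kr hχ]
    exact ⟨fun h => ⟨h.1.1, h.2⟩, fun h => ⟨⟨h.1, hn g h.2 h.1⟩, h.2⟩⟩
  rw [← Subgroup.inf_relIndex_right (kr H χ) D, h1, Subgroup.inf_relIndex_right]

/-- conjugate elements of `H` have the same value -/
theorem Mulp.conj {H : Subgroup G} {χ : G → ℤˣ} (hχ : Mulp H χ) {y g : G} (hy : y ∈ H)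
    (hg : g ∈ H) : χ (y * g * y⁻¹) = χ g := by
  have h1 : χ (y * y⁻¹) = χ y * χ y⁻¹ := hχ y hy y⁻¹ (H.inv_mem hy)
  rw [mul_inv_cancel, hχ.one] at h1
  rw [hχ _ (H.mul_mem hy hg) _ (H.inv_mem hy), hχ y hy g hg, mul_comm (χ y), mul_assoc, ← h1,
    mul_one]

end grp

section basic

variable {V T : Finset ℕ}

theorem fin_open {H : Subgroup GQ} (hH : IsOpen (H : Set GQ)) : Finite (GQ ⧸ H) :=
  (nice_rat ∅).fin hH

/-- the decomposition group of `b P` -/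
theorem mv_D (P : Pl) (b : GQ) : (P.mv b).D = cj b⁻¹ P.D := by
  unfold Pl.D
  rw [cj_cj, ← mul_inv_rev]
  rfl

theorem Ci.op {i : ℕ} {H : Subgroup GQ} (h : Ci V T i H) : IsOpen (H : Set GQ) := h.1

theorem Ci.mono {i : ℕ} {H J : Subgroup GQ} (h : Ci V T i H) (hJ : J ≤ H)
    (hJo : IsOpen (J : Set GQ)) : Ci V T i J :=
  ⟨hJo, fun P hP => (h.2 P hP).trans (Subgroup.relIndex_dvd_of_le_left _ hJ)⟩

theorem Ci.le {i k : ℕ} {H : Subgroup GQ} (h : Ci V T i H) (hk : k ≤ i) : Ci V T k H :=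
  ⟨h.1, fun P hP => (Nat.pow_dvd_pow 2 hk).trans (h.2 P hP)⟩

theorem Ci.cj {i : ℕ} {H : Subgroup GQ} (h : Ci V T i H) (b : GQ) : Ci V T i (cj b H) := by
  refine ⟨cj_open h.1 b, fun P hP => ?_⟩
  rw [cj_relIndex, ← mv_D]
  exact h.2 (P.mv b) hP

theorem Ci.zero {H : Subgroup GQ} (h : IsOpen (H : Set GQ)) : Ci V T 0 H :=
  ⟨h, fun P _ => by rw [pow_zero]; exact one_dvd _⟩

/-- the kernel of a good character -/
theorem good_iff {i : ℕ} {H : Subgroup GQ} (hH : Ci V T i H) {χ : GQ → ℤˣ} (hχ : IsChr H χ) :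
    Good V T i H χ ↔ Ci V T (i + 1) (kr H χ) := by
  constructor
  · intro h
    refine ⟨hχ.2, fun P hP => ?_⟩
    by_cases hc : Crit i H P
    · obtain ⟨g, hg, hgH, hg1⟩ := h P hP hc
      rw [kr_relIndex hχ.1 (fun h1 => hg1 (h1 g hg hgH)), pow_succ, mul_comm]
      exact Nat.mul_dvd_mul_left 2 (hH.2 P hP)
    · exact (not_not.1 hc).trans (Subgroup.relIndex_dvd_of_le_left _ (kr_le H χ))
  · intro h P hP hc
    by_contra hn
    refine hc ?_
    have h1 : ∀ g ∈ P.D, g ∈ H → χ g = 1 := by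
      intro g hg hgH
      by_contra h2
      exact hn ⟨g, hg, hgH, h2⟩
    rw [← kr_relIndex' hχ.1 h1]
    exact h.2 P hP

theorem GT.mono {i : ℕ} {H J : Subgroup GQ} (hH : Ci V T i H) {χ : GQ → ℤˣ}
    (h : GT V T i H χ) (hJ : J ≤ H) (hJo : IsOpen (J : Set GQ)) : GT V T i J χ := by
  have hc : IsChr J χ := by
    refine ⟨h.chr.1.mono hJ, ?_⟩
    rw [kr_mono h.chr.1 hJ, Subgroup.coe_inf]
    exact hJo.inter h.chr.2
  refine ⟨hc, fun P hP g hg hgJ => h.ttr P hP g hg (hJ hgJ), ?_⟩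
  rw [good_iff (hH.mono hJ hJo) hc]
  refine ((good_iff hH h.chr).1 h.good).mono ?_ hc.2
  rw [kr_mono h.chr.1 hJ]
  exact inf_le_right

theorem Crit.mono {i : ℕ} {H J : Subgroup GQ} {P : Pl} (h : Crit i J P) (hJ : J ≤ H)
    (_hJo : IsOpen (J : Set GQ)) : Crit i H P :=
  fun h1 => h (h1.trans (Subgroup.relIndex_dvd_of_le_left _ hJ))

theorem PEq.refl (H : Subgroup GQ) (P : Pl) : PEq H P P :=
  ⟨rfl, 1, H.one_mem, 1, Subgroup.one_mem _, by rw [one_mul, mul_one]⟩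

theorem PEq.symm {H : Subgroup GQ} {P Q : Pl} (h : PEq H P Q) : PEq H Q P := by
  obtain ⟨p, g⟩ := P
  obtain ⟨q, g'⟩ := Q
  obtain ⟨h1, a, ha, d, hd, h2⟩ := h
  change p = q at h1
  subst h1
  refine ⟨rfl, a⁻¹, H.inv_mem ha, d⁻¹, Subgroup.inv_mem _ hd, ?_⟩
  change g' = a * g * d at h2
  change g = a⁻¹ * g' * d⁻¹
  rw [h2]
  group

theorem PEq.trans {H : Subgroup GQ} {P Q R : Pl} (h : PEq H P Q) (h' : PEq H Q R) : PEq H P R := by
  obtain ⟨p, g⟩ := P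
  obtain ⟨q, g'⟩ := Q
  obtain ⟨r, g''⟩ := R
  obtain ⟨h1, a, ha, d, hd, h2⟩ := h
  change p = q at h1
  subst h1
  obtain ⟨h3, b, hb, e, he, h4⟩ := h'
  change p = r at h3
  subst h3
  refine ⟨rfl, b * a, H.mul_mem hb ha, d * e, Subgroup.mul_mem _ hd he, ?_⟩
  change g' = a * g * d at h2
  change g'' = b * g' * e at h4
  change g'' = b * a * g * (d * e)
  rw [h4, h2]
  group

/-- equivalent places have conjugate decomposition groups -/
theorem PEq.D {H : Subgroup GQ} {P Q : Pl} (h : PEq H P Q) :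
    ∃ y ∈ H, Q.D = cj y⁻¹ P.D := by
  obtain ⟨p, g⟩ := P
  obtain ⟨q, g'⟩ := Q
  obtain ⟨h1, a, ha, d, hd, h2⟩ := h
  change p = q at h1
  subst h1
  refine ⟨a, ha, ?_⟩
  change g' = a * g * d at h2
  change cj g'⁻¹ (decomp ℚ_[p] (emb p)) =
    cj a⁻¹ (cj g⁻¹ (decomp ℚ_[p] (emb p)))
  rw [h2, cj_cj, mul_inv_rev, ← cj_cj, cj_of_mem (Subgroup.inv_mem _ hd), mul_inv_rev]

theorem crit_congr {i : ℕ} {H : Subgroup GQ} {P Q : Pl} (h : PEq H P Q) :
    Crit i H P ↔ Crit i H Q := by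
  obtain ⟨y, hy, h1⟩ := h.D
  unfold Crit
  rw [h1, ← cj_relIndex, cj_of_mem hy]

theorem eqAt_congr {H : Subgroup GQ} {P Q : Pl} (h : PEq H P Q) {χ χ' : GQ → ℤˣ}
    (hχ : Mulp H χ) (hχ' : Mulp H χ') : EqAt H P χ χ' ↔ EqAt H Q χ χ' := by
  have key : ∀ P Q : Pl, PEq H P Q → EqAt H P χ χ' → EqAt H Q χ χ' := by
    intro P Q h h1 g hg hgH
    obtain ⟨y, hy, h2⟩ := h.D
    rw [h2, mem_cj_conj] at hg
    have hy' := H.inv_mem hy
    have h3 := h1 _ hg (H.mul_mem (H.mul_mem hy' hgH) (H.inv_mem hy'))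
    rwa [hχ.conj hy' hgH, hχ'.conj hy' hgH] at h3
  exact ⟨key P Q h, key Q P h.symm⟩

theorem ntAt_congr {H : Subgroup GQ} {P Q : Pl} (h : PEq H P Q) {χ : GQ → ℤˣ}
    (hχ : Mulp H χ) : NtAt H P χ ↔ NtAt H Q χ := by
  have key : ∀ P Q : Pl, PEq H P Q → NtAt H Q χ → NtAt H P χ := by
    rintro P Q h ⟨g, hg, hgH, h1⟩
    obtain ⟨y, hy, h2⟩ := h.D
    rw [h2, mem_cj_conj] at hg
    have hy' := H.inv_mem hy
    refine ⟨_, hg, H.mul_mem (H.mul_mem hy' hgH) (H.inv_mem hy'), ?_⟩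
    rwa [hχ.conj hy' hgH]
  exact ⟨key Q P h.symm, key P Q h⟩

theorem Pin.congr {H : Subgroup GQ} {P Q : Pl} (h : PEq H P Q) (hP : Pin V T P) :
    Pin V T Q := by
  obtain ⟨h1, -⟩ := h
  unfold Pin
  rw [← h1]
  exact hP

theorem IsChr.mono {H J : Subgroup GQ} {χ : GQ → ℤˣ} (h : IsChr H χ) (hJ : J ≤ H)
    (hJo : IsOpen (J : Set GQ)) : IsChr J χ := by
  refine ⟨h.1.mono hJ, ?_⟩
  rw [kr_mono h.1 hJ, Subgroup.coe_inf]
  exact hJo.inter h.2

theorem IsChr.mul {H : Subgroup GQ} {χ χ' : GQ → ℤˣ} (h : IsChr H χ) (h' : IsChr H χ') :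
    IsChr H (χ * χ') := by
  refine ⟨h.1.mul h'.1, ?_⟩
  have h1 : kr H χ ⊓ kr H χ' ≤ kr H (χ * χ') := by
    intro g hg
    rw [Subgroup.mem_inf, mem_kr h.1, mem_kr h'.1] at hg
    rw [mem_kr (h.1.mul h'.1), Pi.mul_apply, hg.1.2, hg.2.2, mul_one]
    exact ⟨hg.1.1, rfl⟩
  refine Subgroup.isOpen_mono h1 ?_
  rw [Subgroup.coe_inf]
  exact h.2.inter h'.2

/-- a subgroup of level `i` without critical places has level `i + 1` -/
theorem Ci.succ_of {i : ℕ} {H : Subgroup GQ} (h : Ci V T i H)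
    (hc : ∀ P : Pl, Pin V T P → ¬ Crit i H P) : Ci V T (i + 1) H :=
  ⟨h.1, fun P hP => not_not.1 (hc P hP)⟩

theorem TR.mono {H J : Subgroup GQ} (h : TR H) {χ : GQ → ℤˣ} (hχ : Mulp H χ)
    (hc : ∀ c : GQ, IsCc c → c ∈ H → χ c = 1) (hJ : J = kr H χ) : TR J := by
  intro ι c h1
  rw [hJ, mem_kr hχ]
  exact ⟨h ι c h1, hc c ⟨ι, h1⟩ (h ι c h1)⟩

theorem ES_mono {i n n' B B' : ℕ} (hn : n' ∣ n) (hB : B ≤ B') :
    ES V T i n B ≤ ES V T i n' B' := by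
  refine AddSubgroup.closure_mono ?_
  rintro f (⟨H, h1, h2, h3, h4⟩ | ⟨H, h1, h2, h3, h4⟩ | h)
  · exact Or.inl ⟨H, h1, hn.trans h2, h3.trans hB, h4⟩
  · exact Or.inr (Or.inl ⟨H, h1, hn.trans h2, h3.trans hB, h4⟩)
  · exact Or.inr (Or.inr h)

theorem mem_Ex {i n B : ℕ} {H : Subgroup GQ} (h : Ex V T i H) (hn : n ∣ H.index)
    (hB : H.index ≤ B) : pc H ∈ ES V T i n B :=
  AddSubgroup.subset_closure (Or.inl ⟨H, h, hn, hB, rfl⟩)

theorem mem_two {i n B : ℕ} {H : Subgroup GQ} (h : Ci V T i H) (hn : n ∣ H.index)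
    (hB : H.index ≤ B) : (2 : ℤ) • pc H ∈ ES V T i n B :=
  AddSubgroup.subset_closure (Or.inr (Or.inl ⟨H, h, hn, hB, rfl⟩))

theorem mem_ZT {i n B : ℕ} {f : Subgroup GQ → ℤ} (h : ZT T f) : f ∈ ES V T i n B :=
  AddSubgroup.subset_closure (Or.inr (Or.inr h))

/-- functions vanishing on `famT T` -/
theorem ZT_of_famT {f : Subgroup GQ → ℤ} (h : ∀ U ∈ famT T, f U = 0) : ZT T f := by
  refine ⟨fun t => h _ (Or.inl ⟨t, rfl⟩), 0, AddSubgroup.zero_mem _, fun P hP U hU => ?_⟩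
  rw [h U (Or.inr ⟨P.p, P.hp, P.g, hP, ?_⟩)]
  · rfl
  intro g hg
  rw [mem_cj_conj] at hg
  have h1 := hU hg
  unfold Pl.D at h1
  rw [mem_cj_conj] at h1
  have h2 : P.g⁻¹ * (P.g * g * P.g⁻¹) * P.g⁻¹⁻¹ = g := by group
  rwa [h2] at h1

theorem mem_zero {i n B : ℕ} {f : Subgroup GQ → ℤ} (h : ∀ U ∈ famT T, f U = 0) :
    f ∈ ES V T i n B := mem_ZT (ZT_of_famT h)

/-- membership up to functions vanishing on `famT T` -/
theorem mem_congr {i n B : ℕ} {f g : Subgroup GQ → ℤ} (h : ∀ U ∈ famT T, f U = g U)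
    (hg : g ∈ ES V T i n B) : f ∈ ES V T i n B := by
  have : f = g + (f - g) := by abel
  rw [this]
  refine AddSubgroup.add_mem _ hg (mem_zero fun U hU => ?_)
  rw [Pi.sub_apply, h U hU, sub_self]

theorem ZT.two {f : Subgroup GQ → ℤ} (h : ZT T f) : ZT T ((2 : ℤ) • f) := by
  obtain ⟨h1, z, hz, h2⟩ := h
  refine ⟨fun t => ?_, (2 : ℤ) • z, AddSubgroup.zsmul_mem _ hz 2, fun P hP U hU => ?_⟩
  · rw [Pi.smul_apply, h1 t, smul_zero]
  · rw [Pi.smul_apply, h2 P hP U hU, Pi.smul_apply, smul_eq_mul, smul_eq_mul]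

end basic

end Pool.Agent.GJ
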