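import Pool.Agent.TS.Defs

/-!
# GJ-Defs: fields with local degrees divisible by powers of two, characters, places

Paper: team store `gj_paper.md`.
-/

namespace Pool.Agent.GJ

open MulAction Pool.Agent.H73.DU Pool.Agent.H73.AL Pool.Agent.LD Pool.Agent.TS

section group

variable {G : Type} [Group G]

/-- `χ` is a quadratic character of `H` (the values outside `H` are irrelevant) -/
def Mulp (H : Subgroup G) (χ : G → ℤˣ) : Prop :=
  ∀ a ∈ H, ∀ b ∈ H, χ (a * b) = χ a * χ b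

/-- the kernel of `χ` in `H` -/
def kr (H : Subgroup G) (χ : G → ℤˣ) : Subgroup G where
  carrier := {g | g ∈ H ∧ ∀ x ∈ H, χ (x * g) = χ x}
  mul_mem' := by
    rintro a b ⟨ha, ha'⟩ ⟨hb, hb'⟩
    refine ⟨H.mul_mem ha hb, fun x hx => ?_⟩
    rw [← mul_assoc, hb' _ (H.mul_mem hx ha), ha' x hx]
  one_mem' := ⟨H.one_mem, fun x _ => by rw [mul_one]⟩
  inv_mem' := by
    rintro a ⟨ha, ha'⟩
    refine ⟨H.inv_mem ha, fun x hx => ?_⟩
    rw [← ha' (x * a⁻¹) (H.mul_mem hx (H.inv_mem ha)), mul_assoc, inv_mul_cancel, mul_one]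

theorem kr_le (H : Subgroup G) (χ : G → ℤˣ) : kr H χ ≤ H := fun _ h => h.1

theorem Mulp.one {H : Subgroup G} {χ : G → ℤˣ} (h : Mulp H χ) : χ 1 = 1 := by
  have h1 := h 1 H.one_mem 1 H.one_mem
  rw [mul_one] at h1
  exact left_eq_mul.1 h1

theorem mem_kr {H : Subgroup G} {χ : G → ℤˣ} (h : Mulp H χ) {g : G} :
    g ∈ kr H χ ↔ g ∈ H ∧ χ g = 1 := by
  constructor
  · rintro ⟨h1, h2⟩
    refine ⟨h1, ?_⟩
    have h3 := h2 1 H.one_mem
    rwa [one_mul, h.one] at h3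
  · rintro ⟨h1, h2⟩
    exact ⟨h1, fun x hx => by rw [h x hx g h1, h2, mul_one]⟩

theorem Mulp.mono {H J : Subgroup G} {χ : G → ℤˣ} (h : Mulp H χ) (hJ : J ≤ H) : Mulp J χ :=
  fun a ha b hb => h a (hJ ha) b (hJ hb)

theorem Mulp.mul {H : Subgroup G} {χ χ' : G → ℤˣ} (h : Mulp H χ) (h' : Mulp H χ') :
    Mulp H (χ * χ') := by
  intro a ha b hb
  rw [Pi.mul_apply, Pi.mul_apply, Pi.mul_apply, h a ha b hb, h' a ha b hb]
  exact mul_mul_mul_comm _ _ _ _

theorem kr_mono {H J : Subgroup G} {χ : G → ℤˣ} (h : Mulp H χ) (hJ : J ≤ H) :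
    kr J χ = J ⊓ kr H χ := by
  ext g
  rw [mem_kr (h.mono hJ), Subgroup.mem_inf, mem_kr h]
  exact ⟨fun h1 => ⟨h1.1, hJ h1.1, h1.2⟩, fun h1 => ⟨h1.1, h1.2.2⟩⟩

/-- `χ` is trivial on `H` -/
def Tr (H : Subgroup G) (χ : G → ℤˣ) : Prop := ∀ g ∈ H, χ g = 1

open Classical in
/-- the marks `[H, χ]` of the double cover of `G ⧸ H` given by `χ` -/
noncomputable def pq (H : Subgroup G) (χ : G → ℤˣ) : Subgroup G → ℤ :=
  if Tr H χ then (2 : ℤ) • pc H else pc (kr H χ)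

/-- the induced function (`Pool.Agent.H73.DU.ind`) -/
noncomputable def iH (H : Subgroup G) [Finite (G ⧸ H)] :
    (Subgroup H → ℤ) →+ (Subgroup G → ℤ) :=
  letI := Fintype.ofFinite (G ⧸ H)
  ind H

open Classical in
/-- the function `1 + χ` on the subgroups of `H` -/
noncomputable def tw (H : Subgroup G) (χ : G → ℤˣ) : Subgroup H → ℤ :=
  fun U => if ∀ u ∈ U, χ (u : G) = 1 then 2 else 0

open Classical in
/-- the norm of a character `ζ` of a subgroup `H'` of index `2`, `τ` outside `H'` -/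
noncomputable def nm (H' : Subgroup G) (τ : G) (ζ : G → ℤˣ) : G → ℤˣ :=
  fun h => if h ∈ H' then ζ h * ζ (τ * h * τ⁻¹) else ζ (h * h)

/-- the conjugate character `y ↦ χ (h⁻¹ y h)` of `h H h⁻¹` -/
def cx (h : G) (χ : G → ℤˣ) : G → ℤˣ := fun y => χ (h⁻¹ * y * h)

end group

/-- a place: a prime `p` and an element `g` of the absolute Galois group; it induces a place of every
number field -/
structure Pl where
  p : ℕ
  [hp : Fact p.Prime]
  g : GQ

attribute [instance] Pl.hp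

/-- the decomposition group `g D_p g⁻¹` -/
noncomputable def Pl.D (P : Pl) : Subgroup GQ := cj P.g⁻¹ (decomp ℚ_[P.p] (emb P.p))

/-- the place `h P` -/
noncomputable def Pl.mv (P : Pl) (h : GQ) : Pl where
  p := P.p
  hp := P.hp
  g := h * P.g

/-- the prime of `P` is in `V`, not in `T` -/
def Pin (V T : Finset ℕ) (P : Pl) : Prop := P.p ∈ V ∧ P.p ∉ T

/-- the place over a prime of `T` -/
def PinT (T : Finset ℕ) (P : Pl) : Prop := P.p ∈ T

/-- `P` and `Q` induce the same place of the field of `H` -/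
def PEq (H : Subgroup GQ) (P Q : Pl) : Prop :=
  P.p = Q.p ∧ ∃ h ∈ H, ∃ d ∈ decomp ℚ_[P.p] (emb P.p), Q.g = h * P.g * d

/-- the open subgroups with all local degrees over `V ∖ T` divisible by `2 ^ i` -/
def Ci (V T : Finset ℕ) (i : ℕ) (H : Subgroup GQ) : Prop :=
  IsOpen (H : Set GQ) ∧ ∀ P : Pl, Pin V T P → 2 ^ i ∣ H.relIndex P.D

/-- the local degree at `P` is not divisible by `2 ^ (i + 1)` -/
def Crit (i : ℕ) (H : Subgroup GQ) (P : Pl) : Prop := ¬ 2 ^ (i + 1) ∣ H.relIndex P.D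

/-- all complex conjugations are in `H` -/
def TR (H : Subgroup GQ) : Prop :=
  ∀ (ι : AlgebraicClosure ℚ →+* ℂ) (c : GQ), (∀ x, ι (c x) = starRingEnd ℂ (ι x)) → c ∈ H

/-- `c` is a complex conjugation -/
def IsCc (c : GQ) : Prop := ∃ ι : AlgebraicClosure ℚ →+* ℂ, ∀ x, ι (c x) = starRingEnd ℂ (ι x)

/-- quadratic characters of `H` with open kernel -/
def IsChr (H : Subgroup GQ) (χ : GQ → ℤˣ) : Prop := Mulp H χ ∧ IsOpen (kr H χ : Set GQ)

/-- `χ` is trivial on the decomposition groups at the primes of `T` -/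
def TTr (T : Finset ℕ) (H : Subgroup GQ) (χ : GQ → ℤˣ) : Prop :=
  ∀ P : Pl, PinT T P → ∀ h ∈ P.D, h ∈ H → χ h = 1

/-- `χ` and `χ'` agree at the place `P` of the field of `H` -/
def EqAt (H : Subgroup GQ) (P : Pl) (χ χ' : GQ → ℤˣ) : Prop :=
  ∀ h ∈ P.D, h ∈ H → χ h = χ' h

/-- `χ` is nontrivial at the place `P` of the field of `H` -/
def NtAt (H : Subgroup GQ) (P : Pl) (χ : GQ → ℤˣ) : Prop :=
  ∃ h ∈ P.D, h ∈ H ∧ χ h ≠ 1

/-- `χ` is nontrivial at the critical places -/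
def Good (V T : Finset ℕ) (i : ℕ) (H : Subgroup GQ) (χ : GQ → ℤˣ) : Prop :=
  ∀ P : Pl, Pin V T P → Crit i H P → NtAt H P χ

/-- `χ` is nontrivial at all places over `V ∖ T` -/
def VGood (V T : Finset ℕ) (H : Subgroup GQ) (χ : GQ → ℤˣ) : Prop :=
  ∀ P : Pl, Pin V T P → NtAt H P χ

/-- good `T`-trivial characters of `H` -/
structure GT (V T : Finset ℕ) (i : ℕ) (H : Subgroup GQ) (χ : GQ → ℤˣ) : Prop where
  chr : IsChr H χ
  ttr : TTr T H χ
  good : Good V T i H χ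

/-- a `P`-pair of `H`: two good `T`-trivial characters that agree at all critical places not
equivalent to `P` -/
structure Pair (V T : Finset ℕ) (i : ℕ) (H : Subgroup GQ) (P : Pl) (χ χ' : GQ → ℤˣ) : Prop where
  l : GT V T i H χ
  r : GT V T i H χ'
  eq : ∀ Q : Pl, Pin V T Q → Crit i H Q → ¬ PEq H P Q → EqAt H Q χ χ'

/-- the functions vanishing at the cyclic subgroups and even at the decomposition groups of `T` -/
def ZT (T : Finset ℕ) (f : Subgroup GQ → ℤ) : Prop :=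
  (∀ t : GQ, f (Subgroup.zpowers t) = 0) ∧ ∃ z ∈ RC {H : Subgroup GQ | IsOpen (H : Set GQ)},
    ∀ P : Pl, PinT T P → ∀ U : Subgroup GQ, U ≤ P.D → f U = 2 * z U

/-- the exact subgroups of level `i` -/
def Ex (V T : Finset ℕ) (i : ℕ) (H : Subgroup GQ) : Prop :=
  Ci V T i H ∧ (Ci V T (i + 1) H ∨ TR H ∨ ∃ H' : Subgroup GQ, Ci V T i H' ∧ H ≤ H' ∧
    H.relIndex H' = 2)

/-- the span of the exact subgroups, of the doubles, and of `ZT` -/
def ES (V T : Finset ℕ) (i n B : ℕ) : AddSubgroup (Subgroup GQ → ℤ) :=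
  AddSubgroup.closure {f | (∃ H : Subgroup GQ, Ex V T i H ∧ n ∣ H.index ∧ H.index ≤ B ∧ f = pc H) ∨
    (∃ H : Subgroup GQ, Ci V T i H ∧ n ∣ H.index ∧ H.index ≤ B ∧ f = (2 : ℤ) • pc H) ∨ ZT T f}

/-- bound for theorem F -/
def bE (m : ℕ) : ℕ := 16 * ((8 * m).factorial * 2 ^ (8 * m).factorial)

/-- bound for the comparison of two fields of degree `k` -/
def bG (k : ℕ) : ℕ := bE (k ^ 2).factorial

end Pool.Agent.GJ
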