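import Pool.Agent.TS.K.Odd

/-!
# GJ-FA: the subgroup with an odd mark, once more

`H / Q` is a Sylow `2`-subgroup of the normalizer of `Q = zpowers t' ⊔ N`, `t'` of odd order modulo `N`.
-/

namespace Pool.Agent.GJ

open MulAction Pool.Agent.H73.DU Pool.Agent.TS

variable {G : Type} [Group G]

private theorem fa_mem {Q : Subgroup G} {s : G} {q k : ℕ} (hq : ¬ 2 ∣ q) (h1 : s ^ q ∈ Q)
    (h2 : s ^ 2 ^ k ∈ Q) : s ∈ Q := by
  have hc : Nat.Coprime q (2 ^ k) :=
    Nat.Coprime.pow_right k ((Nat.coprime_comm.1 ((Nat.Prime.coprime_iff_not_dvd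
      Nat.prime_two).2 hq)))
  have h3 : (1 : ℤ) = (q : ℤ) * Nat.gcdA q (2 ^ k) + ((2 ^ k : ℕ) : ℤ) * Nat.gcdB q (2 ^ k) := by
    rw [← Nat.gcd_eq_gcd_ab, hc]
    rfl
  have h4 : s = (s ^ q) ^ Nat.gcdA q (2 ^ k) * (s ^ 2 ^ k) ^ Nat.gcdB q (2 ^ k) := by
    have h5 : s ^ (1 : ℤ) = s ^ ((q : ℤ) * Nat.gcdA q (2 ^ k) +
        ((2 ^ k : ℕ) : ℤ) * Nat.gcdB q (2 ^ k)) := by
      rw [← h3]
    rw [zpow_one, zpow_add, zpow_mul, zpow_mul, zpow_natCast, zpow_natCast] at h5
    exact h5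
  rw [h4]
  exact Q.mul_mem (Q.zpow_mem h1 _) (Q.zpow_mem h2 _)

theorem fa_odd (N : Subgroup G) [N.Normal] [N.FiniteIndex] (t' : G) (q : ℕ) (hq2 : ¬ 2 ∣ q)
    (htq : t' ^ q ∈ N) :
    ∃ H : Subgroup G, N ≤ H ∧ ¬ (2 : ℤ) ∣ pc H (Subgroup.zpowers t') ∧
      (H = ⊤ → (Subgroup.zpowers t' ⊔ N).Normal ∧ ∃ k, (Subgroup.zpowers t' ⊔ N).index = 2 ^ k) := by
  haveI : Fact (Nat.Prime 2) := ⟨Nat.prime_two⟩
  haveI : Finite (G ⧸ N) := Subgroup.finite_quotient_of_finiteIndex
  obtain ⟨Q, hQ⟩ : ∃ Q, Q = Subgroup.zpowers t' ⊔ N := ⟨_, rfl⟩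
  have hNQ : N ≤ Q := hQ ▸ le_sup_right
  have htQ : t' ∈ Q := by
    rw [hQ]
    exact (le_sup_left : Subgroup.zpowers t' ≤ _) (Subgroup.mem_zpowers t')
  haveI : Q.FiniteIndex := Subgroup.finiteIndex_of_le hNQ
  have hQR : Q ≤ Subgroup.normalizer (Q : Set G) := Subgroup.le_normalizer
  obtain ⟨T, hT1, -, hT3⟩ := exists_syl (G := Subgroup.normalizer (Q : Set G)) 2
    (Q.subgroupOf (Subgroup.normalizer (Q : Set G))) ⊤ le_top
  obtain ⟨hT2, k, hk⟩ := hT1
  have hT4 : ¬ 2 ∣ T.index := by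
    rw [Subgroup.relIndex_top_right] at hT3
    exact hT3
  obtain ⟨H, hH⟩ : ∃ H, H = T.map (Subgroup.normalizer (Q : Set G)).subtype := ⟨_, rfl⟩
  have hHR : H ≤ Subgroup.normalizer (Q : Set G) := by
    rw [hH]
    rintro _ ⟨x, -, rfl⟩
    exact x.2
  have hHT : H.subgroupOf (Subgroup.normalizer (Q : Set G)) = T := by
    rw [hH]
    exact Subgroup.comap_map_eq_self_of_injective (Subgroup.subtype_injective _) _
  have hQH : Q ≤ H := by
    intro x hx
    rw [hH]
    exact ⟨⟨x, hQR hx⟩, hT2 hx, rfl⟩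
  have hki : Q.relIndex H = 2 ^ k := by
    rw [← hk, hH]
    have h1 := Subgroup.relIndex_map_map_of_injective
      (H := Q.subgroupOf (Subgroup.normalizer (Q : Set G))) (K := T)
      (Subgroup.subtype_injective (Subgroup.normalizer (Q : Set G)))
    rw [Subgroup.subgroupOf_map_subtype, inf_eq_left.2 hQR] at h1
    exact h1
  haveI hn : (Q.subgroupOf H).Normal := by
    refine (Subgroup.normal_subgroupOf_iff hQH).2 ?_
    intro h g hh hg
    exact (Subgroup.mem_normalizer_iff.1 (hHR hg) h).1 hh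
  have hkey : ∀ g : G, g⁻¹ * t' * g ∈ H → g ∈ Subgroup.normalizer (Q : Set G) := by
    intro g hg
    have h1 : (g⁻¹ * t' * g) ^ q ∈ Q := by
      have h2 : (g⁻¹ * t' * g) ^ q = g⁻¹ * t' ^ q * g := by
        have h3 := conj_pow (i := q) (a := g⁻¹) (b := t')
        rw [inv_inv] at h3
        exact h3
      rw [h2]
      apply hNQ
      have h4 : N.Normal := inferInstance
      have h5 := h4.conj_mem (t' ^ q) htq g⁻¹
      rwa [inv_inv] at h5
    have h2 : (g⁻¹ * t' * g) ^ 2 ^ k ∈ Q := by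
      have h3 := Subgroup.pow_index_mem (Q.subgroupOf H) ⟨g⁻¹ * t' * g, hg⟩
      have h4 : (Q.subgroupOf H).index = 2 ^ k := hki
      rw [h4] at h3
      exact h3
    have h3 := fa_mem hq2 h1 h2
    have h4 : Q.map (MulAut.conj g⁻¹).toMonoidHom ≤ Q := by
      conv_lhs => rw [hQ]
      rw [Subgroup.map_sup, sup_le_iff]
      constructor
      · rw [MonoidHom.map_zpowers, Subgroup.zpowers_le]
        have h5 : (MulAut.conj g⁻¹).toMonoidHom t' = g⁻¹ * t' * g := by
          simp [MulAut.conj_apply]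
        rw [h5]
        exact h3
      · rintro _ ⟨x, hx, rfl⟩
        have h4 : N.Normal := inferInstance
        exact hNQ (h4.conj_mem x hx g⁻¹)
    have h5 : (Q.map (MulAut.conj g⁻¹).toMonoidHom).index = Q.index := by
      have h6 := Subgroup.index_map_equiv Q (MulAut.conj g⁻¹)
      exact h6
    have h6 : Q ≤ Q.map (MulAut.conj g⁻¹).toMonoidHom := by
      have h7 := Subgroup.relIndex_mul_index h4
      rw [h5] at h7
      have h8 : Q.index ≠ 0 := Subgroup.FiniteIndex.index_ne_zero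
      have h9 : (Q.map (MulAut.conj g⁻¹).toMonoidHom).relIndex Q = 1 :=
        Nat.eq_of_mul_eq_mul_right (Nat.pos_of_ne_zero h8) (by rw [h7, one_mul])
      exact Subgroup.relIndex_eq_one.1 h9
    rw [Subgroup.mem_normalizer_iff]
    intro h
    constructor
    · intro hh
      obtain ⟨x, hx, hx'⟩ := h6 hh
      have h7 : g⁻¹ * x * g = h := by
        rw [← hx']
        simp [MulAut.conj_apply]
      have h8 : g * h * g⁻¹ = x := by
        rw [← h7]
        group
      rw [h8]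
      exact hx
    · intro hh
      have h7 := h4 ⟨g * h * g⁻¹, hh, rfl⟩
      have h8 : (MulAut.conj g⁻¹).toMonoidHom (g * h * g⁻¹) = h := by
        simp [MulAut.conj_apply]
        group
      rw [h8] at h7
      exact h7
  have hfix : fx (G ⧸ H) (Subgroup.zpowers t') =
      MulAction.orbit (Subgroup.normalizer (Q : Set G)) ((1 : G) : G ⧸ H) := by
    ext x
    induction x using QuotientGroup.induction_on with
    | H g =>
      rw [fx_zpowers, MulAction.mem_orbit_iff]
      constructor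
      · intro h
        change ((t' * g : G) : G ⧸ H) = g at h
        rw [QuotientGroup.eq] at h
        have h1 : g⁻¹ * t' * g ∈ H := by
          have h2 := H.inv_mem h
          have h3 : ((t' * g)⁻¹ * g)⁻¹ = g⁻¹ * t' * g := by group
          rwa [h3] at h2
        refine ⟨⟨g, hkey g h1⟩, ?_⟩
        change ((g * 1 : G) : G ⧸ H) = g
        rw [mul_one]
      · rintro ⟨r, hr⟩
        have hr' : ((r : G) : G ⧸ H) = g := by
          rw [← hr]
          change _ = (((r : G) * 1 : G) : G ⧸ H)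
          rw [mul_one]
        rw [← hr']
        change ((t' * (r : G) : G) : G ⧸ H) = ((r : G) : G ⧸ H)
        rw [QuotientGroup.eq]
        have h1 : (t' * (r : G))⁻¹ * (r : G) = ((r : G)⁻¹ * t' * (r : G))⁻¹ := by group
        rw [h1]
        refine H.inv_mem (hQH ?_)
        have h2 := (Subgroup.mem_normalizer_iff.1
          ((Subgroup.normalizer (Q : Set G)).inv_mem r.2) t').1 htQ
        rwa [inv_inv] at h2
  have hstab : MulAction.stabilizer (Subgroup.normalizer (Q : Set G)) ((1 : G) : G ⧸ H) = T := by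
    rw [← hHT]
    ext r
    rw [MulAction.mem_stabilizer_iff, Subgroup.mem_subgroupOf]
    change (((r : G) * 1 : G) : G ⧸ H) = ((1 : G) : G ⧸ H) ↔ _
    rw [mul_one, QuotientGroup.eq, mul_one]
    exact H.inv_mem_iff
  have hcard : pc H (Subgroup.zpowers t') = (T.index : ℤ) := by
    unfold pc pch
    rw [hfix, ← hstab, MulAction.index_stabilizer, Nat.card_coe_set_eq]
  haveI : H.FiniteIndex := Subgroup.finiteIndex_of_le hQH
  haveI : Finite (G ⧸ H) := Subgroup.finite_quotient_of_finiteIndex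
  refine ⟨H, hNQ.trans hQH, ?_, ?_⟩
  · intro h2
    rw [hcard] at h2
    exact hT4 (by exact_mod_cast h2)
  · intro hT
    rw [← hQ]
    refine ⟨⟨fun x hx g => ?_⟩, k, ?_⟩
    · have hg : g ∈ Subgroup.normalizer (Q : Set G) := hHR (by rw [hT]; trivial)
      exact (Subgroup.mem_normalizer_iff.1 hg x).1 hx
    · rw [hT, Subgroup.relIndex_top_right] at hki
      exact hki

end Pool.Agent.GJ
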