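import Pool.Agent.GJ.FA
import Pool.Agent.TS.K.Kill

/-!
# GJ-FB: the group lemma (paper F1)

`D = ⊤`, or `D` is contained in a subgroup of index `2`, or there is a combination `y` of the marks of proper
subgroups over `N` which is odd at all elements of `D` of odd order modulo `N`.
-/

namespace Pool.Agent.GJ

open MulAction Pool.Agent.H73.DU Pool.Agent.TS

variable {G : Type} [Group G]

/-- the proper subgroups over `N` -/
def PN (N : Subgroup G) : Set (Subgroup G) := {J | N ≤ J ∧ J ≠ ⊤}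

private theorem fb_le_cj {N H : Subgroup G} [N.Normal] (h : N ≤ H) (b : G) : N ≤ cj b H := by
  intro x hx
  rw [mem_cj_iff]
  refine ⟨b * x * b⁻¹, h (‹N.Normal›.conj_mem x hx b), ?_⟩
  group

private theorem fb_mul (N : Subgroup G) [N.Normal] [N.FiniteIndex] {J : Subgroup G} (hJ : J ∈ PN N)
    {y : Subgroup G → ℤ} (hy : y ∈ RC (PN N)) : y * pc J ∈ RC (PN N) := by
  have : Finite (G ⧸ N) := Subgroup.finite_quotient_of_finiteIndex
  have fin : ∀ {K : Subgroup G}, N ≤ K → Finite (G ⧸ K) := fun {K} h => by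
    have : K.FiniteIndex := Subgroup.finiteIndex_of_le h
    exact Subgroup.finite_quotient_of_finiteIndex
  unfold RC at hy
  induction hy using AddSubgroup.closure_induction with
  | mem f hf =>
    obtain ⟨K, hK, rfl⟩ := hf
    have := fin hK.1
    have := fin hJ.1
    refine pc_mul K J _ fun b => ?_
    refine AddSubgroup.subset_closure ⟨K ⊓ cj b J, ⟨le_inf hK.1 (fb_le_cj hJ.1 b), ?_⟩, rfl⟩
    intro h
    exact hK.2 (top_le_iff.1 (h ▸ inf_le_left))
  | zero =>
    rw [zero_mul]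
    exact AddSubgroup.zero_mem _
  | add x y _ _ hx hy =>
    rw [add_mul]
    exact AddSubgroup.add_mem _ hx hy
  | neg x _ hx =>
    rw [neg_mul]
    exact AddSubgroup.neg_mem _ hx

private theorem fb_ind (N : Subgroup G) [N.Normal] [N.FiniteIndex] (s : Finset (Subgroup G))
    (hs : ∀ J ∈ s, J ∈ PN N) : 1 - ∏ J ∈ s, (1 - pc J) ∈ RC (PN N) := by
  classical
  induction s using Finset.induction_on with
  | empty =>
    rw [Finset.prod_empty, sub_self]
    exact AddSubgroup.zero_mem _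
  | insert J s hJ ih =>
    have h1 := ih fun K hK => hs K (Finset.mem_insert_of_mem hK)
    have hJ' := hs J (Finset.mem_insert_self J s)
    have h2 := fb_mul N hJ' h1
    have h3 : pc J ∈ RC (PN N) := AddSubgroup.subset_closure ⟨J, hJ', rfl⟩
    rw [Finset.prod_insert hJ]
    have e : 1 - (1 - pc J) * ∏ J ∈ s, (1 - pc J) = (1 - ∏ J ∈ s, (1 - pc J)) + pc J -
        (1 - ∏ J ∈ s, (1 - pc J)) * pc J := by ring
    rw [e]
    exact AddSubgroup.sub_mem _ (AddSubgroup.add_mem _ h1 h3) h2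

private theorem fb_two (Q D : Subgroup G) [Q.Normal] (k : ℕ) (hk : Q.index = 2 ^ k) (hQD : Q ≤ D)
    (hD : D ≠ ⊤) : ∃ K : Subgroup G, D ≤ K ∧ K.index = 2 := by
  have hp : Fact (Nat.Prime 2) := ⟨Nat.prime_two⟩
  have hQi : Q.FiniteIndex := ⟨by rw [hk]; exact pow_ne_zero _ two_ne_zero⟩
  have hfin : Finite (G ⧸ Q) := Subgroup.finite_quotient_of_finiteIndex
  have hcard : Nat.card (G ⧸ Q) = 2 ^ k := hk
  have hcomap : (D.map (QuotientGroup.mk' Q)).comap (QuotientGroup.mk' Q) = D := by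
    rw [Subgroup.comap_map_eq, QuotientGroup.ker_mk']
    exact sup_eq_left.2 hQD
  have hsurj : Function.Surjective (QuotientGroup.mk' Q) := QuotientGroup.mk'_surjective Q
  have hmul := Subgroup.card_mul_index (D.map (QuotientGroup.mk' Q))
  rw [hcard] at hmul
  obtain ⟨n, hn, hn'⟩ := (Nat.dvd_prime_pow Nat.prime_two).1 (Dvd.intro _ hmul)
  obtain ⟨m, hm, hm'⟩ := (Nat.dvd_prime_pow Nat.prime_two).1 (Dvd.intro_left _ hmul)
  have hidx : (D.map (QuotientGroup.mk' Q)).index ≠ 1 := by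
    intro h
    apply hD
    rw [Subgroup.index_eq_one] at h
    rw [← hcomap, h, Subgroup.comap_top]
  have hnk : n ≤ k - 1 := by
    rw [hn', hm', ← pow_add] at hmul
    have h1 := Nat.pow_right_injective (le_refl 2) hmul
    have h2 : m ≠ 0 := by
      rintro rfl
      exact hidx (by rw [hm', pow_zero])
    omega
  have hk1 : k ≠ 0 := by
    rintro rfl
    rw [hn', hm', ← pow_add] at hmul
    have h1 := Nat.pow_right_injective (le_refl 2) hmul
    have h2 : m = 0 := by omega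
    exact hidx (by rw [hm', h2, pow_zero])
  obtain ⟨K, hK1, hK2⟩ := Sylow.exists_subgroup_card_pow_prime_le (p := 2) (n := n) (m := k - 1)
    (by rw [hcard]; exact Nat.pow_dvd_pow 2 (Nat.sub_le k 1)) (D.map (QuotientGroup.mk' Q)) hn' hnk
  refine ⟨K.comap (QuotientGroup.mk' Q), ?_, ?_⟩
  · exact Subgroup.map_le_iff_le_comap.1 hK2
  · rw [Subgroup.index_comap_of_surjective _ hsurj]
    have h1 := Subgroup.card_mul_index K
    rw [hcard, hK1] at h1
    have h2 : 2 ^ k = 2 ^ (k - 1) * 2 := by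
      rw [← pow_succ, Nat.sub_add_cancel (Nat.pos_of_ne_zero hk1)]
    rw [h2] at h1
    exact Nat.eq_of_mul_eq_mul_left (by positivity) h1

theorem grpF (N : Subgroup G) [N.Normal] [N.FiniteIndex] (D : Subgroup G) (hND : N ≤ D) :
    D = ⊤ ∨ (∃ K : Subgroup G, D ≤ K ∧ K.index = 2) ∨
      ∃ y ∈ RC (PN N), ∀ d ∈ D, ∀ q : ℕ, ¬ 2 ∣ q → d ^ q ∈ N → ¬ (2 : ℤ) ∣ y (Subgroup.zpowers d) := by
  classical
  have : Finite (G ⧸ N) := Subgroup.finite_quotient_of_finiteIndex
  have : Finite (Subgroup (G ⧸ N)) := inferInstance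
  have hf1 : Finite ({H : Subgroup G | N ≤ H} : Set (Subgroup G)) :=
    Finite.of_equiv _ (QuotientGroup.comapMk'OrderIso N).toEquiv
  have hf2 : (PN N).Finite := (Set.finite_coe_iff.1 hf1).subset fun H hH => hH.1
  by_cases hT : D = ⊤
  · exact Or.inl hT
  right
  by_cases h : ∃ d ∈ D, ∃ q : ℕ, ¬ 2 ∣ q ∧ d ^ q ∈ N ∧ (Subgroup.zpowers d ⊔ N).Normal ∧
      ∃ k, (Subgroup.zpowers d ⊔ N).index = 2 ^ k
  · obtain ⟨d, hd, q, -, -, hn, k, hk⟩ := h
    left
    exact fb_two (Subgroup.zpowers d ⊔ N) D k hk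
      (sup_le ((Subgroup.zpowers_le).2 hd) hND) hT
  · right
    refine ⟨1 - ∏ J ∈ hf2.toFinset, (1 - pc J), fb_ind N _ fun J hJ => hf2.mem_toFinset.1 hJ, ?_⟩
    intro d hd q hq hdq
    obtain ⟨J, hJ1, hJ2, hJ3⟩ := fa_odd N d q hq hdq
    have hJ : J ≠ ⊤ := fun hJ => h ⟨d, hd, q, hq, hdq, hJ3 hJ⟩
    have hm : J ∈ hf2.toFinset := hf2.mem_toFinset.2 ⟨hJ1, hJ⟩
    have h1 : (2 : ℤ) ∣ (∏ J ∈ hf2.toFinset, (1 - pc J)) (Subgroup.zpowers d) := by
      rw [Finset.prod_apply]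
      refine Dvd.dvd.trans ?_ (Finset.dvd_prod_of_mem _ hm)
      rw [Pi.sub_apply, Pi.one_apply]
      omega
    rw [Pi.sub_apply, Pi.one_apply]
    omega

end Pool.Agent.GJ
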